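import Mathlib
import Pool.Agent.Y711.SvDef

/-!
Squarefree monic polynomials divisible by `m`: the asymptotic count (`StS2`).
-/

set_option autoImplicit false
set_option maxHeartbeats 1000000

open Polynomial Classical

namespace Pool.Agent.Y784.SV

open Pool.Agent.W313.Hyp Pool.Agent.Y711

section

variable {k : Type} [Field k] [Finite k]

theorem mem_pd {M : k[X]} (hM : M ≠ 0) {P : MI k} : P ∈ pd M ↔ P.1 ∣ M := by
  have hf : {P : MI k | P.1 ∣ M}.Finite :=
    (finite_deg_le M.natDegree).subset fun P hP => natDegree_le_of_dvd hP hM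
  unfold pd
  rw [dif_pos hf, Set.Finite.mem_toFinset]
  rfl

theorem pd_one : pd (1 : k[X]) = ∅ := by
  ext P
  rw [mem_pd one_ne_zero]
  constructor
  · intro h
    exact absurd (isUnit_of_dvd_one h) P.2.2.not_isUnit
  · intro h
    exact absurd h (Finset.notMem_empty P)

theorem pd_mul {a b : k[X]} (ha : a ≠ 0) (hb : b ≠ 0) : pd (a * b) = pd a ∪ pd b := by
  ext P
  rw [Finset.mem_union, mem_pd (mul_ne_zero ha hb), mem_pd ha, mem_pd hb, P.2.2.prime.dvd_mul]

theorem pd_MI (P : MI k) : pd P.1 = {P} := by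
  ext Q
  rw [mem_pd P.2.2.ne_zero, Finset.mem_singleton]
  constructor
  · intro h
    exact eq_of_dvd_MI h
  · rintro rfl
    exact dvd_rfl

theorem pd_disj {a b : k[X]} (ha : a ≠ 0) (hb : b ≠ 0) (h : IsCoprime a b) :
    Disjoint (pd a) (pd b) := by
  rw [Finset.disjoint_left]
  intro P h1 h2
  rw [mem_pd ha] at h1
  rw [mem_pd hb] at h2
  exact P.2.2.not_isUnit (h.isUnit_of_dvd' h1 h2)

theorem nm_pos (P : MI k) : 0 < nm P := by
  unfold nm
  have : 0 < Nat.card k := Nat.card_pos
  positivity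

theorem three_le (h2 : (2 : k) ≠ 0) : 3 ≤ Nat.card k := by
  have : Fintype k := Fintype.ofFinite k
  rw [Nat.card_eq_fintype_card]
  have h1 : (2 : k) ≠ 1 := by
    intro h
    have : (1 : k) + 1 = 1 := by rw [one_add_one_eq_two, h]
    exact one_ne_zero (add_eq_left.1 this)
  have h3 : ({0, 1, 2} : Finset k).card = 3 := by
    rw [Finset.card_insert_of_notMem, Finset.card_insert_of_notMem, Finset.card_singleton]
    · simpa using h1.symm
    · simp [h2.symm]
  rw [← h3]
  exact Finset.card_le_univ _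

theorem mem_US {m D : k[X]} {n : ℕ} :
    D ∈ US m n ↔ D.Monic ∧ D.natDegree = n ∧ IsCoprime D m ∧ Squarefree D := by
  unfold US UC
  rw [Finset.mem_filter, Finset.mem_filter, mem_MD]
  tauto

omit [Finite k] in
theorem dvd_of_sq_dvd {E F s : k[X]} (hE : E ≠ 0) (hs : Squarefree s) (h : E ^ 2 ∣ F ^ 2 * s) :
    E ∣ F := by
  have hg : EuclideanDomain.gcd E F ≠ 0 := fun h0 => hE (EuclideanDomain.gcd_eq_zero_iff.1 h0).1
  obtain ⟨a, ha⟩ := EuclideanDomain.gcd_dvd_left E F
  obtain ⟨b, hb⟩ := EuclideanDomain.gcd_dvd_right E F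
  set g := EuclideanDomain.gcd E F with hgd
  have hco : IsCoprime a b := by
    have h1 := EuclideanDomain.gcd_eq_gcd_ab E F
    refine ⟨EuclideanDomain.gcdA E F, EuclideanDomain.gcdB E F, ?_⟩
    apply mul_left_cancel₀ hg
    rw [← hgd] at h1
    rw [mul_one]
    calc g * (EuclideanDomain.gcdA E F * a + EuclideanDomain.gcdB E F * b)
        = (g * a) * EuclideanDomain.gcdA E F + (g * b) * EuclideanDomain.gcdB E F := by ring
      _ = g := by rw [← ha, ← hb, ← h1]
  have h2 : a ^ 2 ∣ b ^ 2 * s := by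
    have h3 : g ^ 2 * a ^ 2 ∣ g ^ 2 * (b ^ 2 * s) := by
      have e1 : g ^ 2 * a ^ 2 = E ^ 2 := by rw [ha]; ring
      have e2 : g ^ 2 * (b ^ 2 * s) = F ^ 2 * s := by rw [hb]; ring
      rw [e1, e2]
      exact h
    exact (mul_dvd_mul_iff_left (pow_ne_zero 2 hg)).1 h3
  have h4 : a ^ 2 ∣ s := (hco.pow (m := 2) (n := 2)).dvd_of_dvd_mul_left h2
  have h5 : IsUnit a := hs a (by rwa [sq] at h4)
  rw [ha, hb]
  exact mul_dvd_mul_left _ (h5.dvd)

/-- every monic polynomial is uniquely `E ^ 2 F` with `F` squarefree -/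
theorem total (n : ℕ) :
    ∑ j ∈ Finset.range (n / 2 + 1), Nat.card k ^ j * (US (1 : k[X]) (n - 2 * j)).card =
      Nat.card k ^ n := by
  have h1 : ∑ j ∈ Finset.range (n / 2 + 1), Nat.card k ^ j * (US (1 : k[X]) (n - 2 * j)).card =
      ((Finset.range (n / 2 + 1)).sigma fun j => MD k j ×ˢ US (1 : k[X]) (n - 2 * j)).card := by
    rw [Finset.card_sigma]
    refine Finset.sum_congr rfl fun j _ => ?_
    rw [Finset.card_product, card_MD]
  rw [h1, ← card_MD (k := k) n]
  refine Finset.card_bij (fun x _ => x.2.1 ^ 2 * x.2.2) ?_ ?_ ?_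
  · rintro ⟨j, E, F⟩ h
    rw [Finset.mem_sigma, Finset.mem_product, mem_MD, mem_US, Finset.mem_range] at h
    obtain ⟨hj, ⟨hE, hEd⟩, hF, hFd, -, hFs⟩ := h
    dsimp only at hj hE hEd hF hFd
    rw [mem_MD]
    refine ⟨(hE.pow 2).mul hF, ?_⟩
    dsimp only
    rw [natDegree_mul (pow_ne_zero 2 hE.ne_zero) hF.ne_zero, natDegree_pow]
    omega
  · rintro ⟨j, E, F⟩ h ⟨j', E', F'⟩ h' he
    rw [Finset.mem_sigma, Finset.mem_product, mem_MD, mem_US, Finset.mem_range] at h h'
    obtain ⟨hj, ⟨hE, hEd⟩, hF, hFd, -, hFs⟩ := h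
    obtain ⟨hj', ⟨hE', hEd'⟩, hF', hFd', -, hFs'⟩ := h'
    dsimp only at hj hE hEd hF hFd hj' hE' hEd' hF' hFd' he hFs hFs'
    have a1 : E ∣ E' := dvd_of_sq_dvd hE.ne_zero hFs' (by rw [← he]; exact dvd_mul_right _ _)
    have a2 : E' ∣ E := dvd_of_sq_dvd hE'.ne_zero hFs (by rw [he]; exact dvd_mul_right _ _)
    have a3 : E = E' := eq_of_monic_of_associated hE hE' (associated_of_dvd_dvd a1 a2)
    subst a3
    have a4 : F = F' := mul_left_cancel₀ (pow_ne_zero 2 hE.ne_zero) he
    subst a4
    have a5 : j = j' := by omega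
    subst a5
    rfl
  · intro D hD
    rw [mem_MD] at hD
    obtain ⟨hD, hDd⟩ := hD
    -- the largest square
    have hex : ∃ j : ℕ, ∃ E : k[X], E.Monic ∧ E.natDegree = j ∧ E ^ 2 ∣ D :=
      ⟨0, 1, monic_one, natDegree_one, by simp⟩
    have hbd : ∀ j : ℕ, (∃ E : k[X], E.Monic ∧ E.natDegree = j ∧ E ^ 2 ∣ D) → j ≤ n := by
      rintro j ⟨E, hE, rfl, hd⟩
      have := natDegree_le_of_dvd hd hD.ne_zero
      rw [natDegree_pow] at this
      omega
    obtain ⟨E, hE, hEd, hE2⟩ := Nat.findGreatest_spec (P := fun j => ∃ E : k[X], E.Monic ∧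
      E.natDegree = j ∧ E ^ 2 ∣ D) (hbd _ hex.choose_spec) hex.choose_spec
    set J := Nat.findGreatest (fun j => ∃ E : k[X], E.Monic ∧ E.natDegree = j ∧ E ^ 2 ∣ D) n with hJ
    have hmax : ∀ j : ℕ, (∃ E : k[X], E.Monic ∧ E.natDegree = j ∧ E ^ 2 ∣ D) → j ≤ J := by
      intro j hj
      exact Nat.le_findGreatest (hbd j hj) hj
    obtain ⟨F, hF⟩ := hE2
    have hFm : F.Monic := (hE.pow 2).of_mul_monic_left (hF ▸ hD)
    have hdeg : n = 2 * E.natDegree + F.natDegree := by
      rw [← hDd, hF, natDegree_mul (pow_ne_zero 2 hE.ne_zero) hFm.ne_zero, natDegree_pow]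
    have hsf : Squarefree F := by
      intro x hx
      by_contra hu
      have hx0 : x ≠ 0 := by
        rintro rfl
        rw [zero_mul, zero_dvd_iff] at hx
        exact hFm.ne_zero hx
      have hxm : (normalize x).Monic := monic_normalize hx0
      have hxa : Associated (normalize x) x := normalize_associated x
      have hx1 : (normalize x).natDegree ≠ 0 := by
        intro h0
        apply hu
        rw [← hxa.isUnit_iff, hxm.natDegree_eq_zero.1 h0]
        exact isUnit_one
      have := hmax (E * normalize x).natDegree ⟨E * normalize x, hE.mul hxm, rfl, by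
        rw [hF, mul_pow]
        refine mul_dvd_mul_left _ ?_
        rw [sq]
        exact (hxa.mul_mul hxa).dvd.trans hx⟩
      rw [hE.natDegree_mul hxm] at this
      omega
    refine ⟨⟨E.natDegree, E, F⟩, ?_, hF.symm⟩
    rw [Finset.mem_sigma, Finset.mem_product, mem_MD, mem_US, Finset.mem_range]
    exact ⟨by dsimp only; omega, ⟨hE, rfl⟩, hFm, by dsimp only; omega, isCoprime_one_right, hsf⟩

/-- the number of monic squarefree polynomials of degree `n ≥ 2` -/
theorem card_sqf (n : ℕ) : (US (1 : k[X]) (n + 2)).card + Nat.card k ^ (n + 1) =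
    Nat.card k ^ (n + 2) := by
  have h1 := total (k := k) (n + 2)
  have h2 := total (k := k) n
  have e : (n + 2) / 2 + 1 = (n / 2 + 1) + 1 := by omega
  rw [e, Finset.sum_range_succ'] at h1
  have h3 : ∑ j ∈ Finset.range (n / 2 + 1), Nat.card k ^ (j + 1) *
      (US (1 : k[X]) (n + 2 - 2 * (j + 1))).card = Nat.card k ^ (n + 1) := by
    rw [pow_succ, ← h2, Finset.sum_mul]
    refine Finset.sum_congr rfl fun j _ => ?_
    have : n + 2 - 2 * (j + 1) = n - 2 * j := by omega
    rw [this, pow_succ]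
    ring
  rw [h3] at h1
  simp only [pow_zero, mul_zero, tsub_zero, one_mul] at h1
  omega

/-- removing a prime -/
theorem card_step {m : k[X]} (P : MI k) (n : ℕ) (hP : ¬ P.1 ∣ m) :
    (US m n).card = (US (P.1 * m) n).card +
      if P.1.natDegree ≤ n then (US (P.1 * m) (n - P.1.natDegree)).card else 0 := by
  have hcop : ∀ D : k[X], IsCoprime D (P.1 * m) ↔ ¬ P.1 ∣ D ∧ IsCoprime D m := by
    intro D
    rw [IsCoprime.mul_right_iff, isCoprime_comm, P.2.2.coprime_iff_not_dvd]
  have h1 : US m n = US (P.1 * m) n ∪ (US m n).filter fun D => P.1 ∣ D := by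
    ext D
    rw [Finset.mem_union, Finset.mem_filter, mem_US, mem_US, hcop]
    tauto
  have h2 : Disjoint (US (P.1 * m) n) ((US m n).filter fun D => P.1 ∣ D) := by
    rw [Finset.disjoint_left]
    intro D h3 h4
    rw [mem_US, hcop] at h3
    rw [Finset.mem_filter] at h4
    exact h3.2.2.1.1 h4.2
  rw [h1, Finset.card_union_of_disjoint h2]
  congr 1
  split_ifs with h
  · symm
    refine Finset.card_bij (fun D _ => P.1 * D) ?_ ?_ ?_
    · intro D hD
      rw [mem_US, hcop] at hD
      obtain ⟨a1, a2, ⟨a3, a4⟩, a5⟩ := hD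
      rw [Finset.mem_filter, mem_US]
      refine ⟨⟨P.2.1.mul a1, ?_, ?_, ?_⟩, dvd_mul_right _ _⟩
      · rw [P.2.1.natDegree_mul a1]
        omega
      · exact IsCoprime.mul_left ((P.2.2.coprime_iff_not_dvd).2 hP) a4
      · exact squarefree_mul_iff.2 ⟨((P.2.2.coprime_iff_not_dvd).2 a3).isRelPrime,
          P.2.2.squarefree, a5⟩
    · intro D _ D' _ h3
      exact mul_left_cancel₀ P.2.2.ne_zero h3
    · intro D hD
      rw [Finset.mem_filter, mem_US] at hD
      obtain ⟨⟨a1, a2, a3, a4⟩, D', rfl⟩ := hD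
      have a5 : D'.Monic := P.2.1.of_mul_monic_left a1
      refine ⟨D', ?_, rfl⟩
      rw [mem_US, hcop]
      rw [P.2.1.natDegree_mul a5] at a2
      refine ⟨a5, by omega, ⟨?_, ?_⟩, ?_⟩
      · intro h5
        have := a4 P.1 (mul_dvd_mul_left _ h5)
        exact P.2.2.not_isUnit this
      · exact a3.of_isCoprime_of_dvd_left (dvd_mul_left _ _)
      · exact a4.squarefree_of_dvd (dvd_mul_left _ _)
  · rw [Finset.card_eq_zero, Finset.filter_eq_empty_iff]
    intro D hD h3
    rw [mem_US] at hD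
    have := natDegree_le_of_dvd h3 hD.1.ne_zero
    omega

/-- the density -/
noncomputable def cm (m : k[X]) : ℝ :=
  (1 - (Nat.card k : ℝ)⁻¹) * ∏ P ∈ pd m, (nm P / (nm P + 1))

theorem asymp (d : ℕ) : ∀ m : k[X], m.Monic → Squarefree m → m.natDegree = d →
    (∏ P ∈ pd m, nm P = (Nat.card k : ℝ) ^ m.natDegree) ∧ 0 ≤ cm m ∧ cm m ≤ 1 ∧
    ∃ K : ℝ, 0 ≤ K ∧ ∀ n : ℕ,
      |((US m n).card : ℝ) - cm m * (Nat.card k : ℝ) ^ n| ≤ K * 2 ^ n := by
  have hq1 : (2 : ℝ) ≤ Nat.card k := by
    have : 1 < Nat.card k := Finite.one_lt_card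
    exact_mod_cast this
  set q : ℝ := (Nat.card k : ℝ) with hq
  have hq0 : (0 : ℝ) < q := by linarith
  induction d using Nat.strong_induction_on with
  | _ d ih =>
    intro m hm hs hd
    rcases Nat.eq_zero_or_pos d with h0 | h0
    · have hm1 : m = 1 := hm.natDegree_eq_zero.1 (hd.trans h0)
      subst hm1
      have hc : cm (1 : k[X]) = 1 - q⁻¹ := by
        unfold cm
        rw [pd_one, Finset.prod_empty, mul_one]
      have hqi : 0 < q⁻¹ := by positivity
      have hqi1 : q⁻¹ ≤ 1 := inv_le_one_of_one_le₀ (by linarith)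
      refine ⟨by rw [pd_one, Finset.prod_empty, natDegree_one, pow_zero], by rw [hc]; linarith,
        by rw [hc]; linarith, 1 + q, by linarith, ?_⟩
      intro n
      rw [hc]
      rcases n with _ | _ | n
      · have h1 := total (k := k) 0
        simp only [Nat.zero_div, zero_add, Finset.sum_range_one, pow_zero, mul_zero, tsub_zero,
          one_mul] at h1
        rw [h1]
        simp only [pow_zero, mul_one, Nat.cast_one]
        rw [abs_le]
        constructor <;> linarith
      · have h1 := total (k := k) 1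
        simp only [Nat.reduceDiv, zero_add, Finset.sum_range_one, pow_zero, mul_zero, tsub_zero,
          one_mul, pow_one] at h1
        rw [zero_add, h1, ← hq, pow_one, pow_one]
        have : (1 - q⁻¹) * q = q - 1 := by field_simp
        rw [this, abs_le]
        constructor <;> linarith
      · have h1 := card_sqf (k := k) n
        have h2 : ((US (1 : k[X]) (n + 2)).card : ℝ) + q ^ (n + 1) = q ^ (n + 2) := by
          rw [hq]; exact_mod_cast h1
        have h3 : ((US (1 : k[X]) (n + 1 + 1)).card : ℝ) - (1 - q⁻¹) * q ^ (n + 1 + 1) = 0 := by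
          have e1 : (1 - q⁻¹) * q ^ (n + 1 + 1) = q ^ (n + 2) - q ^ (n + 1) := by
            rw [pow_succ q (n + 1)]
            field_simp
          rw [e1, ← h2]
          ring
        rw [h3, abs_zero]
        positivity
    · obtain ⟨P, hP⟩ := exists_MI hm (by omega)
      obtain ⟨m', rfl⟩ := hP
      have hm' : m'.Monic := P.2.1.of_mul_monic_left hm
      have hs' : Squarefree m' := hs.squarefree_of_dvd (dvd_mul_left _ _)
      have hPm : ¬ P.1 ∣ m' := by
        intro h
        exact P.2.2.not_isUnit (hs P.1 (mul_dvd_mul_left _ h))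
      have hdeg : (P.1 * m').natDegree = P.1.natDegree + m'.natDegree := P.2.1.natDegree_mul hm'
      have hPd := P.deg_pos
      obtain ⟨i1, i2, i3, K, hK0, hK⟩ := ih m'.natDegree (by omega) m' hm' hs' rfl
      have hpd : pd (P.1 * m') = insert P (pd m') := by
        rw [pd_mul P.2.2.ne_zero hm'.ne_zero, pd_MI]
        rfl
      have hPn : P ∉ pd m' := by rwa [mem_pd hm'.ne_zero]
      have hN := nm_pos P
      have hc : cm (P.1 * m') = cm m' * (nm P / (nm P + 1)) := by
        unfold cm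
        rw [hpd, Finset.prod_insert hPn]
        ring
      have hN1 : nm P / (nm P + 1) ≤ 1 := by
        rw [div_le_one (by linarith)]
        linarith
      have hN0 : 0 ≤ nm P / (nm P + 1) := by positivity
      have hc0 : 0 ≤ cm (P.1 * m') := by rw [hc]; positivity
      have hc1 : cm (P.1 * m') ≤ cm m' := by
        rw [hc]
        exact mul_le_of_le_one_right i2 hN1
      refine ⟨?_, hc0, hc1.trans i3, 2 * K + q ^ P.1.natDegree, by positivity, ?_⟩
      · rw [hpd, Finset.prod_insert hPn, i1, hdeg, pow_add]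
        rfl
      · intro n
        induction n using Nat.strong_induction_on with
        | _ n ihn =>
          have hst := card_step P n hPm
          by_cases hle : P.1.natDegree ≤ n
          · rw [if_pos hle] at hst
            have hst' : ((US m' n).card : ℝ) = ((US (P.1 * m') n).card : ℝ) +
                ((US (P.1 * m') (n - P.1.natDegree)).card : ℝ) := by exact_mod_cast hst
            have h3 := ihn (n - P.1.natDegree) (by omega)
            have h4 := hK n
            have h5 : cm m' * q ^ n = cm (P.1 * m') * q ^ n +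
                cm (P.1 * m') * q ^ (n - P.1.natDegree) := by
              rw [hc, pow_sub₀ _ hq0.ne' hle]
              have : nm P = q ^ P.1.natDegree := rfl
              rw [this]
              field_simp
            have h6 : (2 : ℝ) ^ (n - P.1.natDegree) ≤ 2 ^ n / 2 := by
              rw [le_div_iff₀ (by norm_num), ← pow_succ]
              exact pow_le_pow_right₀ (by norm_num) (by omega)
            have h7 : (2 * K + q ^ P.1.natDegree) * 2 ^ (n - P.1.natDegree) ≤
                (2 * K + q ^ P.1.natDegree) * (2 ^ n / 2) := by gcongr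
            have h8 : (0 : ℝ) ≤ q ^ P.1.natDegree * 2 ^ n := by positivity
            rw [abs_le] at h3 h4 ⊢
            constructor <;> nlinarith
          · rw [if_neg hle, add_zero] at hst
            rw [← hst]
            have h4 := hK n
            have h5 : q ^ n ≤ q ^ P.1.natDegree := pow_le_pow_right₀ (by linarith) (by omega)
            have h6 : |cm m' * q ^ n - cm (P.1 * m') * q ^ n| ≤ q ^ P.1.natDegree := by
              rw [← sub_mul, abs_mul, abs_of_nonneg (by linarith : 0 ≤ cm m' - cm (P.1 * m')),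
                abs_of_pos (by positivity)]
              calc (cm m' - cm (P.1 * m')) * q ^ n ≤ 1 * q ^ P.1.natDegree := by
                    gcongr
                    linarith
                _ = _ := one_mul _
            have h7 : |((US m' n).card : ℝ) - cm (P.1 * m') * q ^ n| ≤
                |((US m' n).card : ℝ) - cm m' * q ^ n| + |cm m' * q ^ n - cm (P.1 * m') * q ^ n| := by
              have := abs_add_le (((US m' n).card : ℝ) - cm m' * q ^ n)
                (cm m' * q ^ n - cm (P.1 * m') * q ^ n)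
              simpa using this
            have h8 : (1 : ℝ) ≤ 2 ^ n := one_le_pow₀ (by norm_num)
            have h9 : (0 : ℝ) < q ^ P.1.natDegree := by positivity
            nlinarith

theorem st_S2 (h2 : (2 : k) ≠ 0) : StS2 k := by
  intro m hm hs ε hε
  have hq3 : (3 : ℝ) ≤ Nat.card k := by exact_mod_cast three_le h2
  obtain ⟨i1, i2, i3, K, hK0, hK⟩ := asymp m.natDegree m hm hs rfl
  set q : ℝ := (Nat.card k : ℝ) with hq
  have hq0 : (0 : ℝ) < q := by linarith
  set μ := m.natDegree with hμ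
  have ht := tendsto_pow_atTop_nhds_zero_of_lt_one (r := (2 / 3 : ℝ)) (by norm_num) (by norm_num)
  obtain ⟨N, hN⟩ := Filter.eventually_atTop.1
    (ht.eventually_lt_const (show (0 : ℝ) < ε / (K + 1) by positivity))
  refine ⟨max N μ, fun g hg => ?_⟩
  have hg1 : N ≤ g := (le_max_left _ _).trans hg
  have hg2 : μ ≤ g := (le_max_right _ _).trans hg
  have h1 : (US m (2 * g + 1 - μ)).card ≤ (DS g m).card := by
    refine Finset.card_le_card_of_injOn (fun D => m * D) ?_ ?_
    · intro D hD
      rw [Finset.mem_coe, mem_US] at hD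
      obtain ⟨h3, h4, h5, h6⟩ := hD
      rw [Finset.mem_coe, mem_DS]
      refine ⟨hm.mul h3, ?_, ?_, dvd_mul_right _ _⟩
      · show (m * D).natDegree = _
        rw [natDegree_mul hm.ne_zero h3.ne_zero]
        omega
      · exact squarefree_mul_iff.2 ⟨h5.symm.isRelPrime, hs, h6⟩
    · intro D _ D' _ h
      exact mul_left_cancel₀ hm.ne_zero h
  have h3 : ((US m (2 * g + 1 - μ)).card : ℝ) ≤ ((DS g m).card : ℝ) := by exact_mod_cast h1
  refine le_trans ?_ h3
  have h4 := (abs_le.1 (hK (2 * g + 1 - μ))).1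
  have h5 : cm m * q ^ (2 * g + 1 - μ) = q ^ (2 * g + 1) *
      ((1 - q⁻¹) * ∏ P ∈ pd m, (nm P + 1)⁻¹) := by
    rw [pow_sub₀ _ hq0.ne' (by omega), ← i1]
    unfold cm
    rw [← Finset.prod_inv_distrib]
    have h6 : ∏ P ∈ pd m, (nm P / (nm P + 1)) =
        (∏ P ∈ pd m, nm P) * ∏ P ∈ pd m, (nm P + 1)⁻¹ := by
      rw [← Finset.prod_mul_distrib]
      rfl
    have h7 : (∏ P ∈ pd m, nm P) * ∏ P ∈ pd m, (nm P)⁻¹ = 1 := by
      rw [← Finset.prod_mul_distrib]
      exact Finset.prod_eq_one fun P _ => mul_inv_cancel₀ (nm_pos P).ne'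
    rw [h6]
    calc _ = q ^ (2 * g + 1) * ((1 - q⁻¹) * ∏ P ∈ pd m, (nm P + 1)⁻¹) *
        ((∏ P ∈ pd m, nm P) * ∏ P ∈ pd m, (nm P)⁻¹) := by ring
      _ = _ := by rw [h7, mul_one]
  have h6 : K * 2 ^ (2 * g + 1 - μ) ≤ ε * q ^ (2 * g + 1) := by
    have h7 : (2 : ℝ) ^ (2 * g + 1 - μ) ≤ 2 ^ (2 * g + 1) :=
      pow_le_pow_right₀ (by norm_num) (by omega)
    have h8 : ((2 : ℝ) / 3) ^ (2 * g + 1) ≤ ε / (K + 1) := (hN (2 * g + 1) (by omega)).le
    rw [div_pow, div_le_div_iff₀ (by positivity) (by positivity)] at h8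
    have h9 : (3 : ℝ) ^ (2 * g + 1) ≤ q ^ (2 * g + 1) := pow_le_pow_left₀ (by norm_num) hq3 _
    have h10 : (0 : ℝ) < 2 ^ (2 * g + 1) := by positivity
    calc K * 2 ^ (2 * g + 1 - μ) ≤ K * 2 ^ (2 * g + 1) := by gcongr
      _ ≤ 2 ^ (2 * g + 1) * (K + 1) := by nlinarith
      _ ≤ ε * 3 ^ (2 * g + 1) := h8
      _ ≤ ε * q ^ (2 * g + 1) := by gcongr
  rw [h5] at h4
  rw [mul_sub]
  linarith

end

end Pool.Agent.Y784.SV
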