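import Mathlib
import Pool.Agent.Y784.SV.S2

/-!
The final limit argument: proportion `1/2` from `StS1` and `StS2`.
-/

set_option autoImplicit false
set_option maxHeartbeats 1000000

open Polynomial Classical

namespace Pool.Agent.Y784.SV

open Pool.Agent.W313.Hyp Pool.Agent.Y711

section

variable {k : Type} [Field k] [Finite k]

/-- the number of smooth polynomials -/
theorem smooth_le (u : ℝ) (hu0 : 0 ≤ u) (hu1 : u < 1) (z : ℕ) (A : Finset (MI k)) :
    ∀ y ≤ z, (∑ n ∈ Finset.range (y + 1), ((SA A n).ncard : ℝ) * u ^ n) *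
      ∏ P ∈ A, (1 - u ^ P.1.natDegree) ≤ 1 := by
  have hfac : ∀ P : MI k, 0 < 1 - u ^ P.1.natDegree := by
    intro P
    have := pow_lt_one₀ hu0 hu1 P.deg_pos.ne'
    linarith
  induction A using Finset.induction_on with
  | empty =>
    intro y _
    rw [Finset.prod_empty, mul_one, Finset.sum_range_succ']
    have h1 : ∀ n : ℕ, ((SA (∅ : Finset (MI k)) (n + 1)).ncard : ℝ) * u ^ (n + 1) = 0 := by
      intro n
      rw [SA_empty, if_neg (by omega), Set.ncard_empty, Nat.cast_zero, zero_mul]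
    simp only [h1, Finset.sum_const_zero, zero_add]
    rw [SA_empty, if_pos rfl, Set.ncard_singleton]
    simp
  | insert P A hP ih =>
    intro y hy
    rw [Finset.prod_insert hP]
    set S : ℕ → ℝ := fun n => ((SA (insert P A) n).ncard : ℝ) * u ^ n with hS
    have hS0 : ∀ n, 0 ≤ S n := fun n => by positivity
    have h1 : ∀ n, S n ≤ ((SA A n).ncard : ℝ) * u ^ n +
        if P.1.natDegree ≤ n then u ^ P.1.natDegree * S (n - P.1.natDegree) else 0 := by
      intro n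
      simp only [hS]
      rw [SA_insert A P hP n]
      split_ifs with h
      · have h2 := Set.ncard_union_le (SA A n) ((fun g => P.1 * g) '' SA (insert P A) (n - P.1.natDegree))
        have h3 : ((fun g => P.1 * g) '' SA (insert P A) (n - P.1.natDegree)).ncard ≤
            (SA (insert P A) (n - P.1.natDegree)).ncard := Set.ncard_image_le (SA_finite _ _)
        have h4 : (((SA A n ∪ (fun g => P.1 * g) '' SA (insert P A) (n - P.1.natDegree)).ncard : ℕ) : ℝ) ≤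
            ((SA A n).ncard : ℝ) + ((SA (insert P A) (n - P.1.natDegree)).ncard : ℝ) := by
          exact_mod_cast h2.trans (Nat.add_le_add_left h3 _)
        have h5 : u ^ n = u ^ P.1.natDegree * u ^ (n - P.1.natDegree) := by
          rw [← pow_add, Nat.add_sub_cancel' h]
        calc _ ≤ (((SA A n).ncard : ℝ) + ((SA (insert P A) (n - P.1.natDegree)).ncard : ℝ)) * u ^ n := by
              gcongr
          _ = _ := by rw [add_mul]; nth_rewrite 2 [h5]; ring
      · rw [Set.union_empty, add_zero]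
    have h2 : ∑ n ∈ Finset.range (y + 1), S n ≤
        (∑ n ∈ Finset.range (y + 1), ((SA A n).ncard : ℝ) * u ^ n) +
          u ^ P.1.natDegree * ∑ n ∈ Finset.range (y + 1), S n := by
      refine (Finset.sum_le_sum fun n _ => h1 n).trans ?_
      rw [Finset.sum_add_distrib, Finset.mul_sum]
      apply add_le_add le_rfl
      rw [← Finset.sum_filter]
      have h3 : ∑ n ∈ (Finset.range (y + 1)).filter (fun n => P.1.natDegree ≤ n),
          u ^ P.1.natDegree * S (n - P.1.natDegree) =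
          ∑ n ∈ ((Finset.range (y + 1)).filter (fun n => P.1.natDegree ≤ n)).image
            (fun n => n - P.1.natDegree), u ^ P.1.natDegree * S n := by
        rw [Finset.sum_image]
        intro a ha b hb hab
        rw [Finset.mem_coe, Finset.mem_filter] at ha hb
        have := ha.2
        have := hb.2
        simp only at hab
        omega
      rw [h3]
      apply Finset.sum_le_sum_of_subset_of_nonneg
      · intro n hn
        rw [Finset.mem_image] at hn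
        obtain ⟨a, ha, rfl⟩ := hn
        rw [Finset.mem_filter, Finset.mem_range] at ha
        rw [Finset.mem_range]
        omega
      · intro n _ _
        have := hS0 n
        positivity
    have h3 := ih y hy
    have h4 : (∑ n ∈ Finset.range (y + 1), S n) * (1 - u ^ P.1.natDegree) ≤
        ∑ n ∈ Finset.range (y + 1), ((SA A n).ncard : ℝ) * u ^ n := by linarith
    have h5 : 0 ≤ ∏ P ∈ A, (1 - u ^ P.1.natDegree) := Finset.prod_nonneg fun P _ => (hfac P).le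
    calc _ = ((∑ n ∈ Finset.range (y + 1), S n) * (1 - u ^ P.1.natDegree)) *
          ∏ P ∈ A, (1 - u ^ P.1.natDegree) := by ring
      _ ≤ (∑ n ∈ Finset.range (y + 1), ((SA A n).ncard : ℝ) * u ^ n) *
          ∏ P ∈ A, (1 - u ^ P.1.natDegree) := by gcongr
      _ ≤ 1 := h3

/-- the primes of degree at most `z` -/
noncomputable def Az (k : Type) [Field k] [Finite k] (z : ℕ) : Finset (MI k) :=
  (finite_deg_le (F := k) z).toFinset

theorem mem_Az {z : ℕ} {P : MI k} : P ∈ Az k z ↔ P.1.natDegree ≤ z := by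
  unfold Az
  rw [Set.Finite.mem_toFinset]
  rfl

theorem ncard_SA {z : ℕ} {A : Finset (MI k)} (hA : Az k z ⊆ A) {n : ℕ} (hn : n ≤ z) :
    (SA A n).ncard = Nat.card k ^ n := by
  rw [← card_MD (k := k) n, ← Set.ncard_coe_finset]
  congr 1
  ext g
  rw [Finset.mem_coe, mem_MD]
  constructor
  · intro h
    exact h.1
  · intro h
    refine ⟨h, fun P hP => hA ?_⟩
    rw [mem_Az]
    have := natDegree_le_of_dvd hP h.1.ne_zero
    omega

/-- the Euler product -/
theorem euler_le {z : ℕ} {A : Finset (MI k)} (hA : Az k z ⊆ A) :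
    (1 - ((Nat.card k : ℝ)⁻¹) ^ (z + 1)) * ∏ P ∈ A, (1 - ((nm P)⁻¹) ^ 2) ≤
      1 - (Nat.card k : ℝ)⁻¹ := by
  have hq1 : (2 : ℝ) ≤ Nat.card k := by
    have : 1 < Nat.card k := Finite.one_lt_card
    exact_mod_cast this
  set q : ℝ := (Nat.card k : ℝ) with hq
  have hq0 : (0 : ℝ) < q := by linarith
  have hqi : q⁻¹ < 1 := inv_lt_one_of_one_lt₀ (by linarith)
  have hqi0 : 0 < q⁻¹ := by positivity
  have h1 := smooth_le ((q⁻¹) ^ 2) (by positivity) (pow_lt_one₀ hqi0.le hqi two_ne_zero) z A z le_rfl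
  have h2 : ∑ n ∈ Finset.range (z + 1), ((SA A n).ncard : ℝ) * ((q⁻¹) ^ 2) ^ n =
      ∑ n ∈ Finset.range (z + 1), (q⁻¹) ^ n := by
    refine Finset.sum_congr rfl fun n hn => ?_
    rw [ncard_SA hA (by rw [Finset.mem_range] at hn; omega)]
    push_cast
    rw [← hq, ← pow_mul, two_mul, pow_add, ← mul_assoc, ← mul_pow, mul_inv_cancel₀ hq0.ne',
      one_pow, one_mul]
  have h3 : ∏ P ∈ A, (1 - ((q⁻¹) ^ 2) ^ P.1.natDegree) = ∏ P ∈ A, (1 - ((nm P)⁻¹) ^ 2) := by
    refine Finset.prod_congr rfl fun P _ => ?_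
    unfold nm
    rw [← hq, ← inv_pow, ← pow_mul, ← pow_mul, mul_comm]
  rw [h2, h3] at h1
  have h4 : (1 - q⁻¹) * ∑ n ∈ Finset.range (z + 1), (q⁻¹) ^ n = 1 - (q⁻¹) ^ (z + 1) := by
    rw [mul_neg_geom_sum]
  rw [← h4]
  have h5 : 0 ≤ 1 - q⁻¹ := by linarith
  calc _ = (1 - q⁻¹) * ((∑ n ∈ Finset.range (z + 1), (q⁻¹) ^ n) *
        ∏ P ∈ A, (1 - ((nm P)⁻¹) ^ 2)) := by ring
    _ ≤ (1 - q⁻¹) * 1 := by gcongr
    _ = _ := mul_one _

theorem prod_monic (T : Finset (MI k)) : (∏ P ∈ T, P.1).Monic :=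
  monic_prod_of_monic _ _ fun P _ => P.2.1

theorem pd_prod (T : Finset (MI k)) : pd (∏ P ∈ T, P.1) = T := by
  induction T using Finset.induction_on with
  | empty => rw [Finset.prod_empty, pd_one]
  | insert P T hP ih =>
    rw [Finset.prod_insert hP, pd_mul P.2.2.ne_zero (prod_monic T).ne_zero, pd_MI, ih]
    rfl

theorem cop_MI {P Q : MI k} (h : P ≠ Q) : IsCoprime P.1 Q.1 :=
  (P.2.2.coprime_iff_not_dvd).2 fun hd => h (eq_of_dvd_MI hd)

theorem sqf_prod (T : Finset (MI k)) : Squarefree (∏ P ∈ T, P.1) := by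
  induction T using Finset.induction_on with
  | empty => rw [Finset.prod_empty]; exact squarefree_one
  | insert P T hP ih =>
    rw [Finset.prod_insert hP, squarefree_mul_iff]
    refine ⟨IsCoprime.isRelPrime ?_, P.2.2.squarefree, ih⟩
    apply IsCoprime.prod_right
    intro Q hQ
    apply cop_MI
    rintro rfl
    exact hP hQ

/-- the covering -/
theorem SF_cover {g : ℕ} {m : k[X]} (hm : m.Monic) {T : Finset (MI k)}
    (hT : ∀ P ∈ T, ¬ P.1 ∣ m) :
    SF g m ⊆ T.powerset.biUnion fun U => SFn g (m * ∏ P ∈ U, P.1) (∏ P ∈ T \ U, P.1) := by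
  intro x hx
  rw [mem_SF] at hx
  obtain ⟨D, hD, hsol⟩ := hx
  rw [Finset.mem_biUnion]
  set U := T.filter fun P => P.1 ∣ D with hU
  have hcop : IsCoprime m (∏ P ∈ U, P.1) := by
    apply IsCoprime.prod_right
    intro P hP
    exact ((P.2.2.coprime_iff_not_dvd).2 (hT P (Finset.mem_filter.1 hP).1)).symm
  have hdv : (∏ P ∈ U, P.1) ∣ D := by
    apply Finset.prod_dvd_of_coprime
    · intro P _ Q _ h
      exact cop_MI h
    · intro P hP
      exact (Finset.mem_filter.1 hP).2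
  have hD' : IsD g (m * ∏ P ∈ U, P.1) D :=
    ⟨hD.monic, hD.deg, hD.sqf, hcop.mul_dvd hD.dvd hdv⟩
  refine ⟨U, Finset.mem_powerset.2 (Finset.filter_subset _ _), ?_⟩
  unfold SFn
  rw [Finset.mem_filter, mem_SF]
  refine ⟨⟨D, hD', hsol⟩, D, hD', hsol, ?_⟩
  apply IsCoprime.prod_right
  intro P hP
  rw [Finset.mem_sdiff] at hP
  refine ((P.2.2.coprime_iff_not_dvd).2 fun h => hP.2 ?_).symm
  exact Finset.mem_filter.2 ⟨hP.1, h⟩

/-- the two local weights -/
noncomputable def w1 (P : MI k) : ℝ := (nm P)⁻¹ * (1 - (nm P)⁻¹) * (1 - ((nm P)⁻¹) ^ 2) ^ 2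
noncomputable def w2 (P : MI k) : ℝ := (1 - (nm P)⁻¹) * (1 - ((nm P)⁻¹) ^ 2) ^ 2

theorem w1_eq (P : MI k) : w1 P = (nm P + 1)⁻¹ * (1 - ((nm P)⁻¹) ^ 2) ^ 3 := by
  have h := nm_pos P
  unfold w1
  field_simp
  ring

theorem w12_eq (P : MI k) : w1 P + w2 P = (1 - ((nm P)⁻¹) ^ 2) ^ 3 := by
  unfold w1 w2
  ring

theorem wmn_eq {m : k[X]} (hm : m.Monic) {T : Finset (MI k)} (hT : ∀ P ∈ T, ¬ P.1 ∣ m) :
    ∑ U ∈ T.powerset, wmn (m * ∏ P ∈ U, P.1) (∏ P ∈ T \ U, P.1) =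
      (∏ P ∈ pd m, (nm P + 1)⁻¹) * (∏ P ∈ pd m ∪ T, (1 - ((nm P)⁻¹) ^ 2)) ^ 3 := by
  have hdis : Disjoint (pd m) T := by
    rw [Finset.disjoint_left]
    intro P h1 h2
    rw [mem_pd hm.ne_zero] at h1
    exact hT P h2 h1
  have h1 : ∀ U ∈ T.powerset, wmn (m * ∏ P ∈ U, P.1) (∏ P ∈ T \ U, P.1) =
      (∏ P ∈ pd m, w1 P) * ((∏ P ∈ U, w1 P) * ∏ P ∈ T \ U, w2 P) := by
    intro U hU
    rw [Finset.mem_powerset] at hU
    unfold wmn
    rw [pd_mul hm.ne_zero (prod_monic U).ne_zero, pd_prod, pd_prod,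
      Finset.prod_union (Finset.disjoint_of_subset_right hU hdis), ← mul_assoc]
    rfl
  rw [Finset.sum_congr rfl h1, ← Finset.mul_sum, ← Finset.prod_add, Finset.prod_union hdis, mul_pow,
    ← mul_assoc]
  congr 1
  · rw [← Finset.prod_pow, ← Finset.prod_mul_distrib]
    exact Finset.prod_congr rfl fun P _ => w1_eq P
  · rw [← Finset.prod_pow]
    exact Finset.prod_congr rfl fun P _ => w12_eq P

theorem st_S3 (h2 : (2 : k) ≠ 0) (H1 : StS1 k) (H2 : StS2 k)
    {m : k[X]} (hm : m.Monic) (hs : Squarefree m) {c : ℝ} (hc : c < 1 / 2) :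
    ∃ N : ℕ, ∀ g, N ≤ g →
      c * ((DS g m).card : ℝ) ≤ (((DS g m).filter fun D => ¬ Bad D).card : ℝ) := by
  have hq1 : (2 : ℝ) ≤ Nat.card k := by
    have : 1 < Nat.card k := Finite.one_lt_card
    exact_mod_cast this
  set q : ℝ := (Nat.card k : ℝ) with hq
  have hq0 : (0 : ℝ) < q := by linarith
  have hqi : q⁻¹ < 1 := inv_lt_one_of_one_lt₀ (by linarith)
  have hqi0 : 0 < q⁻¹ := by positivity
  set W : ℝ := ∏ P ∈ pd m, (nm P + 1)⁻¹ with hW
  have hW0 : 0 < W := Finset.prod_pos fun P _ => by have := nm_pos P; positivity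
  set c0 : ℝ := (1 - q⁻¹) * W with hc0
  have hc00 : 0 < c0 := mul_pos (by linarith) hW0
  -- choose `z`: `(1 - q^{-(z+1)})^{-3} ≤ 1 + η`
  set η : ℝ := (1 - 2 * c) / 4 with hη
  have hη0 : 0 < η := by rw [hη]; linarith
  obtain ⟨z, hz⟩ : ∃ z : ℕ, (1 : ℝ) ≤ (1 + η) * (1 - (q⁻¹) ^ (z + 1)) ^ 3 := by
    have ht : Filter.Tendsto (fun z : ℕ => (1 + η) * (1 - (q⁻¹) ^ (z + 1)) ^ 3) Filter.atTop
        (nhds ((1 + η) * (1 - 0) ^ 3)) := by
      have h := (tendsto_pow_atTop_nhds_zero_of_lt_one hqi0.le hqi).comp (Filter.tendsto_add_atTop_nat 1)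
      exact ((tendsto_const_nhds.sub h).pow 3).const_mul _
    have hlt : (1 : ℝ) < (1 + η) * (1 - 0) ^ 3 := by
      rw [sub_zero, one_pow, mul_one]; linarith
    obtain ⟨z, hz⟩ := (ht.eventually_const_lt hlt).exists
    exact ⟨z, hz.le⟩
  set T : Finset (MI k) := (Az k z) \ pd m with hT
  have hTm : ∀ P ∈ T, ¬ P.1 ∣ m := by
    intro P hP h
    rw [hT, Finset.mem_sdiff, mem_pd hm.ne_zero] at hP
    exact hP.2 h
  have hsub : Az k z ⊆ pd m ∪ T := by
    intro P hP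
    rw [Finset.mem_union, hT, Finset.mem_sdiff]
    tauto
  set Vp : ℝ := ∏ P ∈ pd m ∪ T, (1 - ((nm P)⁻¹) ^ 2) with hVp
  have hVp0 : 0 ≤ Vp := Finset.prod_nonneg fun P _ => by
    have h3 : (nm P)⁻¹ ≤ 1 := by
      apply inv_le_one_of_one_le₀
      unfold nm
      exact one_le_pow₀ (by linarith)
    have h4 : 0 < (nm P)⁻¹ := inv_pos.2 (nm_pos P)
    nlinarith
  have heul : (1 - (q⁻¹) ^ (z + 1)) * Vp ≤ 1 - q⁻¹ := euler_le hsub
  have hVp3 : Vp ^ 3 ≤ (1 + η) * (1 - q⁻¹) ^ 3 := by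
    have hx : 0 ≤ 1 - (q⁻¹) ^ (z + 1) := by
      have := pow_le_one₀ (n := z + 1) hqi0.le hqi.le
      linarith
    have h3 : ((1 - (q⁻¹) ^ (z + 1)) * Vp) ^ 3 ≤ (1 - q⁻¹) ^ 3 :=
      pow_le_pow_left₀ (mul_nonneg hx hVp0) heul 3
    calc Vp ^ 3 = 1 * Vp ^ 3 := (one_mul _).symm
      _ ≤ ((1 + η) * (1 - (q⁻¹) ^ (z + 1)) ^ 3) * Vp ^ 3 := by gcongr
      _ = (1 + η) * ((1 - (q⁻¹) ^ (z + 1)) * Vp) ^ 3 := by rw [mul_pow]; ring
      _ ≤ _ := by gcongr
  -- `#SF`
  set ε : ℝ := η * c0 / (2 ^ T.card + 1) with hε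
  have hε0 : 0 < ε := by positivity
  have hsum : ∃ N1 : ℕ, ∀ g, N1 ≤ g → ((SF g m).card : ℝ) ≤
      q ^ (2 * g + 1) * ((1 + 2 * η) * c0) := by
    have hN : ∀ U ∈ T.powerset, ∃ N : ℕ, ∀ g, N ≤ g →
        ((SFn g (m * ∏ P ∈ U, P.1) (∏ P ∈ T \ U, P.1)).card : ℝ) ≤ q ^ (2 * g + 1) *
          ((q / (q - 1)) ^ 2 * wmn (m * ∏ P ∈ U, P.1) (∏ P ∈ T \ U, P.1) + ε) := by
      intro U hU
      rw [Finset.mem_powerset] at hU
      apply H1 _ _ (hm.mul (prod_monic U)) (prod_monic _) _ ε hε0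
      have h5 : m * (∏ P ∈ U, P.1) * ∏ P ∈ T \ U, P.1 = m * ∏ P ∈ T, P.1 := by
        rw [mul_assoc, mul_comm (∏ P ∈ U, P.1), Finset.prod_sdiff hU]
      rw [h5, squarefree_mul_iff]
      refine ⟨IsCoprime.isRelPrime ?_, hs, sqf_prod T⟩
      apply IsCoprime.prod_right
      intro P hP
      exact ((P.2.2.coprime_iff_not_dvd).2 (hTm P hP)).symm
    choose! N hN using hN
    refine ⟨T.powerset.sup N, fun g hg => ?_⟩
    have h5 : ((SF g m).card : ℝ) ≤ ∑ U ∈ T.powerset,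
        ((SFn g (m * ∏ P ∈ U, P.1) (∏ P ∈ T \ U, P.1)).card : ℝ) := by
      exact_mod_cast (Finset.card_le_card (SF_cover hm hTm)).trans Finset.card_biUnion_le
    have h6 : ∑ U ∈ T.powerset,
        ((SFn g (m * ∏ P ∈ U, P.1) (∏ P ∈ T \ U, P.1)).card : ℝ) ≤
        ∑ U ∈ T.powerset, q ^ (2 * g + 1) *
          ((q / (q - 1)) ^ 2 * wmn (m * ∏ P ∈ U, P.1) (∏ P ∈ T \ U, P.1) + ε) := by
      refine Finset.sum_le_sum fun U hU => hN U hU g ?_
      exact (Finset.le_sup hU).trans hg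
    refine (h5.trans h6).trans ?_
    rw [← Finset.mul_sum, Finset.sum_add_distrib, ← Finset.mul_sum, wmn_eq hm hTm,
      Finset.sum_const, Finset.card_powerset, nsmul_eq_mul]
    have h7 : ((2 ^ T.card : ℕ) : ℝ) * ε ≤ η * c0 := by
      rw [hε]
      push_cast
      rw [mul_div_assoc', div_le_iff₀ (by positivity)]
      nlinarith [mul_pos hη0 hc00]
    have h8 : (q / (q - 1)) ^ 2 * (W * Vp ^ 3) ≤ (1 + η) * c0 := by
      have h9 : (q / (q - 1)) ^ 2 * (1 - q⁻¹) ^ 3 = 1 - q⁻¹ := by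
        have : q - 1 ≠ 0 := by linarith
        field_simp
      calc (q / (q - 1)) ^ 2 * (W * Vp ^ 3) ≤
          (q / (q - 1)) ^ 2 * (W * ((1 + η) * (1 - q⁻¹) ^ 3)) := by gcongr
        _ = (1 + η) * (((q / (q - 1)) ^ 2 * (1 - q⁻¹) ^ 3) * W) := by ring
        _ = _ := by rw [h9]
    gcongr
    linarith
  obtain ⟨N1, hN1⟩ := hsum
  obtain ⟨N2, hN2⟩ := H2 m hm hs (η * c0) (by positivity)
  refine ⟨max N1 N2, fun g hg => ?_⟩
  have a1 := hN1 g ((le_max_left _ _).trans hg)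
  have a2 := hN2 g ((le_max_right _ _).trans hg)
  rw [← hq, ← hW, ← hc0] at a2
  have a3 : 2 * (((DS g m).filter Bad).card : ℝ) ≤ ((SF g m).card : ℝ) := by
    exact_mod_cast two_mul_bad_le h2 g m
  have a4 : ((DS g m).card : ℝ) = (((DS g m).filter Bad).card : ℝ) +
      (((DS g m).filter fun D => ¬ Bad D).card : ℝ) := by
    have := Finset.card_filter_add_card_filter_not (s := DS g m) Bad
    exact_mod_cast this.symm
  set X : ℝ := q ^ (2 * g + 1) * c0 with hX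
  have hX0 : 0 < X := by positivity
  have a5 : ((SF g m).card : ℝ) ≤ (1 + 2 * η) * X := by
    refine a1.trans (le_of_eq ?_)
    rw [hX]; ring
  have a6 : (1 - η) * X ≤ ((DS g m).card : ℝ) := by
    refine le_trans (le_of_eq ?_) a2
    rw [hX]; ring
  -- `#Bad ≤ (1 + 2η)/2 X`, `(1 - c) #DS ≥ (1 - c)(1 - η) X`
  by_cases hcneg : c ≤ 0
  · have h5 : (0 : ℝ) ≤ ((DS g m).card : ℝ) := by positivity
    have h6 : (0 : ℝ) ≤ (((DS g m).filter fun D => ¬ Bad D).card : ℝ) := by positivity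
    nlinarith
  · have hc1 : 0 < c := not_le.1 hcneg
    have h5 : (1 - c) * ((1 - η) * X) ≤ (1 - c) * ((DS g m).card : ℝ) :=
      mul_le_mul_of_nonneg_left a6 (by linarith)
    have h6 : (1 + 2 * η) / 2 * X ≤ (1 - c) * ((1 - η) * X) := by
      have h7 : (1 + 2 * η) / 2 ≤ (1 - c) * (1 - η) := by
        rw [hη]
        nlinarith
      calc (1 + 2 * η) / 2 * X ≤ ((1 - c) * (1 - η)) * X := by gcongr
        _ = _ := by ring
    linarith

end

end Pool.Agent.Y784.SV
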